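import Pool.Agent.Helper96.DT.BA

/-!
# Derivations along a point whose kernel contains two coprime elements
-/

set_option autoImplicit false
set_option linter.all false

namespace Pool.Agent.Helper51.OLB

open Pool.Agent.Helper58.SH

/-- The dimension drops under a quotient map which is not injective. -/
lemma drop {R S : Type} [CommRing R] [IsDomain R] [CommRing S] (f : R →+* S)
    (hf : Function.Surjective f) {r : R} (hr : r ≠ 0) (hfr : f r = 0) :
    ringKrullDim S + 1 ≤ ringKrullDim R := by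
  have h1 : ringKrullDim (R ⧸ Ideal.span {r}) + 1 ≤ ringKrullDim R :=
    ringKrullDim_quotient_succ_le_of_nonZeroDivisor (mem_nonZeroDivisors_of_ne_zero hr)
  have h2 : ringKrullDim S ≤ ringKrullDim (R ⧸ Ideal.span {r}) := by
    refine ringKrullDim_le_of_surjective (Ideal.Quotient.lift (Ideal.span {r}) f ?_) ?_
    · intro a ha
      obtain ⟨b, rfl⟩ := Ideal.mem_span_singleton.1 ha
      rw [map_mul, hfr, zero_mul]
    · exact Ideal.Quotient.lift_surjective_of_surjective _ _ hf
  exact (add_le_add_left h2 1).trans h1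

/-- A prime with two coprime elements has a quotient of codimension at least two. -/
lemma drop2 {R : Type} [CommRing R] [IsDomain R] [UniqueFactorizationMonoid R] {q : Ideal R}
    (hq : q.IsPrime) {a b : R} (ha : a ∈ q) (hb : b ∈ q) (hb0 : b ≠ 0)
    (hcop : ∀ p, Prime p → p ∣ a → ¬ p ∣ b) {M : ℕ} (hdim : ringKrullDim R = (M : ℕ)) :
    ∃ N : ℕ, ringKrullDim (R ⧸ q) = (N : ℕ) ∧ N + 2 ≤ M := by
  classical
  -- a prime factor of `b` in `q`
  have hex : ∃ p, Prime p ∧ p ∣ b ∧ p ∈ q := by
    have h1 := UniqueFactorizationMonoid.factors_prod hb0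
    have h2 : (UniqueFactorizationMonoid.factors b).prod ∈ q := by
      obtain ⟨u, hu⟩ := h1
      have h3 : (UniqueFactorizationMonoid.factors b).prod * u ∈ q := by
        rw [hu]
        exact hb
      exact (hq.mem_or_mem h3).resolve_right fun h => hq.ne_top (Ideal.eq_top_of_isUnit_mem _ h u.isUnit)
    have h3 := (hq.multiset_prod_mem_iff_exists_mem (UniqueFactorizationMonoid.factors b)).1 h2
    obtain ⟨p, hp, hpq⟩ := h3
    exact ⟨p, UniqueFactorizationMonoid.prime_of_factor _ hp,
      UniqueFactorizationMonoid.dvd_of_mem_factors hp, hpq⟩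
  obtain ⟨p, hp, hpb, hpq⟩ := hex
  have hpa : ¬ p ∣ a := fun h => hcop p hp h hpb
  have hI : (Ideal.span {p}).IsPrime := (Ideal.span_singleton_prime hp.ne_zero).2 hp
  have hle : Ideal.span {p} ≤ q := (Ideal.span_singleton_le_iff_mem _).2 hpq
  have hdom : IsDomain (R ⧸ Ideal.span {p}) := Ideal.Quotient.isDomain _
  have h1 : ringKrullDim (R ⧸ Ideal.span {p}) + 1 ≤ ringKrullDim R :=
    drop (Ideal.Quotient.mk _) Ideal.Quotient.mk_surjective hp.ne_zero
      (Ideal.Quotient.eq_zero_iff_mem.2 (Ideal.mem_span_singleton_self p))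
  have h2 : ringKrullDim (R ⧸ q) + 1 ≤ ringKrullDim (R ⧸ Ideal.span {p}) := by
    refine drop (r := Ideal.Quotient.mk _ a) (Ideal.Quotient.factor hle)
      (Ideal.Quotient.factor_surjective hle) ?_ ?_
    · intro h
      rw [Ideal.Quotient.eq_zero_iff_mem, Ideal.mem_span_singleton] at h
      exact hpa h
    · rw [Ideal.Quotient.factor_mk]
      exact Ideal.Quotient.eq_zero_iff_mem.2 ha
  have hnt : Nontrivial (R ⧸ q) := Ideal.Quotient.nontrivial_iff.2 hq.ne_top
  have h3 : 0 ≤ ringKrullDim (R ⧸ q) := ringKrullDim_nonneg_of_nontrivial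
  rw [hdim] at h1
  generalize ringKrullDim (R ⧸ q) = x at h2 h3 ⊢
  generalize ringKrullDim (R ⧸ Ideal.span {p}) = y at h1 h2
  induction x using WithBot.recBotCoe with
  | bot => exact absurd h3 (by simp)
  | coe x =>
    induction y using WithBot.recBotCoe with
    | bot =>
      exfalso
      have : ((x + 1 : ℕ∞) : WithBot ℕ∞) ≤ ⊥ := by exact_mod_cast h2
      exact absurd this (by simp)
    | coe y =>
      have h1' : y + 1 ≤ (M : ℕ∞) := by exact_mod_cast h1
      have h2' : x + 1 ≤ y := by exact_mod_cast h2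
      have hy : y ≠ ⊤ := by
        rintro rfl
        simp at h1'
      lift y to ℕ using hy
      have hx : x ≠ ⊤ := by
        rintro rfl
        simp at h2'
      lift x to ℕ using hx
      refine ⟨x, rfl, ?_⟩
      have h1'' : y + 1 ≤ M := by exact_mod_cast h1'
      have h2'' : x + 1 ≤ y := by exact_mod_cast h2'
      omega

/-- Derivations along a point whose kernel contains two coprime elements are dependent, also after
one more linear condition `μ`. -/
theorem dep {R : Type} [CommRing R] [Algebra ℂ R] {k : Type} [Field k] [Algebra ℂ k] [IsDomain R]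
    [UniqueFactorizationMonoid R] (hfg : Algebra.FiniteType ℂ R) {M : ℕ}
    (hdim : ringKrullDim R = (M : ℕ)) {p : R →ₐ[ℂ] k} {a b : R} (ha : p a = 0) (hb : p b = 0)
    (hb0 : b ≠ 0) (hcop : ∀ π, Prime π → π ∣ a → ¬ π ∣ b) {m : ℕ} (hm : M ≤ m)
    (D : Fin m → Derivation ℂ k k) (μ : Fin m → k) :
    ∃ c : Fin m → k, c ≠ 0 ∧ ∑ i, c i * μ i = 0 ∧ ∀ r, ∑ i, c i * D i (p r) = 0 := by
  classical
  have hq : (RingHom.ker p).IsPrime := RingHom.ker_isPrime p
  obtain ⟨N, hN, hNM⟩ := drop2 hq (a := a) (b := b) ha hb hb0 hcop hdim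
  have hdom : IsDomain (R ⧸ RingHom.ker p) := Ideal.Quotient.isDomain _
  have hfg' : Algebra.FiniteType ℂ (R ⧸ RingHom.ker p) :=
    Algebra.FiniteType.of_surjective (Ideal.Quotient.mkₐ ℂ (RingHom.ker p))
      (Ideal.Quotient.mkₐ_surjective _ _)
  obtain ⟨g, ginj, gint⟩ := Pool.Agent.Helper96.DT.noether (R ⧸ RingHom.ker p) hN
  let p' : (R ⧸ RingHom.ker p) →ₐ[ℂ] k := Ideal.kerLiftAlg p
  have hp' : Function.Injective p' := Ideal.kerLiftAlg_injective p
  have hpp : ∀ r, p' (Ideal.Quotient.mk _ r) = p r := fun r => Ideal.kerLiftAlg_mk p r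
  -- the linear system
  let F₁ : (Fin m → k) →ₗ[k] (Fin N → k) :=
    { toFun := fun c j => ∑ i, c i * D i (p' (g (MvPolynomial.X j)))
      map_add' := by
        intro c c'
        funext j
        simp only [Pi.add_apply, add_mul, Finset.sum_add_distrib]
      map_smul' := by
        intro t c
        funext j
        simp only [Pi.smul_apply, smul_eq_mul, RingHom.id_apply, Finset.mul_sum, mul_assoc] }
  let F₂ : (Fin m → k) →ₗ[k] k :=
    { toFun := fun c => ∑ i, c i * μ i
      map_add' := by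
        intro c c'
        simp only [Pi.add_apply, add_mul, Finset.sum_add_distrib]
      map_smul' := by
        intro t c
        simp only [Pi.smul_apply, smul_eq_mul, RingHom.id_apply, Finset.mul_sum, mul_assoc] }
  let F : (Fin m → k) →ₗ[k] (Fin N → k) × k := F₁.prod F₂
  have hker : LinearMap.ker F ≠ ⊥ := by
    refine LinearMap.ker_ne_bot_of_finrank_lt ?_
    rw [Module.finrank_prod, Module.finrank_self]
    simp only [Module.finrank_fintype_fun_eq_card, Fintype.card_fin]
    omega
  obtain ⟨c, hc, hc0⟩ := Submodule.exists_mem_ne_zero_of_ne_bot hker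
  have hcF := Prod.ext_iff.1 (LinearMap.mem_ker.1 hc)
  refine ⟨c, hc0, hcF.2, fun r => ?_⟩
  let Δ : k →ₗ[ℂ] k := ∑ i, c i • (D i).toLinearMap
  have hΔ : ∀ x, Δ x = ∑ i, c i * D i x := by
    intro x
    simp only [Δ, LinearMap.sum_apply, LinearMap.smul_apply, smul_eq_mul]
    rfl
  have hδ : IsDer p' (Δ ∘ₗ p'.toLinearMap) := ⟨by
    intro x y
    change Δ (p' (x * y)) = p' x * Δ (p' y) + p' y * Δ (p' x)
    rw [hΔ, hΔ, hΔ, map_mul, Finset.mul_sum, Finset.mul_sum, ← Finset.sum_add_distrib]
    refine Finset.sum_congr rfl fun i _ => ?_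
    rw [Derivation.leibniz, smul_eq_mul, smul_eq_mul]
    ring⟩
  have h := Pool.Agent.Helper96.DT.der_zero g ginj gint hp' _ hδ (by
    intro j
    change Δ (p' (g (MvPolynomial.X j))) = 0
    rw [hΔ]
    exact congrFun hcF.1 j) (Ideal.Quotient.mk _ r)
  have h' : Δ (p' (Ideal.Quotient.mk _ r)) = 0 := h
  rw [hpp, hΔ] at h'
  exact h'

end Pool.Agent.Helper51.OLB
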